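import Mathlib

/-!
# Expected consecutive pattern counts versus inversion number: failure of unimodality
-/

namespace Pool.Agent.Results.MP_094caa_co.NotUnimodal

open Equiv Finset

/-- The number of inversions of a permutation. -/
def inv {n : ℕ} (σ : Perm (Fin n)) : ℕ :=
  (univ.filter fun p : Fin n × Fin n => p.1 < p.2 ∧ σ p.2 < σ p.1).card

/-- The consecutive pattern `π` occurs in `σ` at the (0-based) position `i`: the entries
`σ i, σ (i+1), …, σ (i+k-1)` are in the same relative order as `π 0, …, π (k-1)`. -/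
def OccursAt {k n : ℕ} (π : Perm (Fin k)) (σ : Perm (Fin n)) (i : Fin (n + 1 - k)) : Prop :=
  ∀ a b : Fin k, σ ⟨i + a, by omega⟩ < σ ⟨i + b, by omega⟩ ↔ π a < π b

instance {k n : ℕ} (π : Perm (Fin k)) (σ : Perm (Fin n)) (i : Fin (n + 1 - k)) :
    Decidable (OccursAt π σ i) := by
  unfold OccursAt; infer_instance

/-- The number of occurrences of the consecutive pattern `π` in `σ`. -/
def occ {k n : ℕ} (π : Perm (Fin k)) (σ : Perm (Fin n)) : ℕ :=
  (univ.filter fun i : Fin (n + 1 - k) => OccursAt π σ i).card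

/-- The expected number of occurrences of the consecutive pattern `π` in a uniformly random
permutation of `Fin n` with exactly `m` inversions. -/
def expected (n m : ℕ) {k : ℕ} (π : Perm (Fin k)) : ℚ :=
  (∑ σ ∈ univ.filter (fun σ : Perm (Fin n) => inv σ = m), (occ π σ : ℚ)) /
    ((univ.filter fun σ : Perm (Fin n) => inv σ = m).card : ℚ)

/-! ### List models -/

/-- Number of entries of `l` smaller than `x`. -/
def cntL (x : ℕ) : List ℕ → ℕ
  | [] => 0
  | y :: l => (if y < x then 1 else 0) + cntL x l

/-- Number of inversions of a list. -/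
def invL : List ℕ → ℕ
  | [] => 0
  | x :: l => cntL x l + invL l

lemma cntL_ofFn (x : ℕ) : ∀ (n : ℕ) (f : Fin n → ℕ),
    cntL x (List.ofFn f) = ∑ j, if f j < x then 1 else 0
  | 0, f => by simp [cntL]
  | n + 1, f => by
    rw [List.ofFn_succ, cntL, cntL_ofFn x n, Fin.sum_univ_succ]

lemma invL_ofFn : ∀ (n : ℕ) (f : Fin n → ℕ),
    invL (List.ofFn f) = ∑ i, ∑ j, if i < j ∧ f j < f i then 1 else 0
  | 0, f => by simp [invL]
  | n + 1, f => by
    rw [List.ofFn_succ, invL, cntL_ofFn, invL_ofFn n, Fin.sum_univ_succ]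
    congr 1
    · rw [Fin.sum_univ_succ]
      simp
    · refine Finset.sum_congr rfl fun i _ => ?_
      rw [Fin.sum_univ_succ]
      simp [Fin.succ_lt_succ_iff]

/-- The list of values of a permutation. -/
def toL {n : ℕ} (σ : Perm (Fin n)) : List ℕ := List.ofFn fun i => (σ i : ℕ)

lemma inv_eq_invL {n : ℕ} (σ : Perm (Fin n)) : inv σ = invL (toL σ) := by
  rw [toL, invL_ofFn, inv, Finset.card_filter, ← Finset.univ_product_univ, Finset.sum_product]
  simp only [Fin.val_fin_lt]

/-- The pattern `51234`. -/
def pat : Perm (Fin 5) where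
  toFun := ![4, 0, 1, 2, 3]
  invFun := ![1, 2, 3, 4, 0]
  left_inv := by decide
  right_inv := by decide

/-- Indicator of an occurrence of the pattern `51234` on five numbers. -/
def ind (a b c d e : ℕ) : ℕ :=
  if b < c then (if c < d then (if d < e then (if e < a then 1 else 0) else 0) else 0) else 0

/-- Number of occurrences of `51234` in a list of length seven. -/
def occL : List ℕ → ℕ
  | [a, b, c, d, e, f, g] => ind a b c d e + (ind b c d e f + ind c d e f g)
  | _ => 0

lemma occursAt_iff (σ : Perm (Fin 7)) (i : Fin (7 + 1 - 5)) :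
    OccursAt pat σ i ↔ ((σ ⟨i + 1, by omega⟩ : ℕ) < σ ⟨i + 2, by omega⟩ ∧
      (σ ⟨i + 2, by omega⟩ : ℕ) < σ ⟨i + 3, by omega⟩ ∧
      (σ ⟨i + 3, by omega⟩ : ℕ) < σ ⟨i + 4, by omega⟩ ∧
      (σ ⟨i + 4, by omega⟩ : ℕ) < σ ⟨i + 0, by omega⟩) := by
  constructor
  · intro h
    exact ⟨(h 1 2).2 (by decide), (h 2 3).2 (by decide), (h 3 4).2 (by decide),
      (h 4 0).2 (by decide)⟩
  · rintro ⟨h1, h2, h3, h4⟩ a b
    rw [← Fin.val_fin_lt]
    fin_cases a <;> fin_cases b <;> simp [pat] at h1 h2 h3 h4 ⊢ <;> omega


lemma ind_eq (a b c d e : ℕ) : ind a b c d e = if (b < c ∧ c < d ∧ d < e ∧ e < a) then 1 else 0 := by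
  unfold ind
  split_ifs <;> simp_all

lemma occ_eq_occL (σ : Perm (Fin 7)) : occ pat σ = occL (toL σ) := by
  have h3 : occ pat σ = ∑ i : Fin 3, if OccursAt pat σ i then 1 else 0 := by
    rw [occ, Finset.card_filter]
  rw [h3, Fin.sum_univ_three]
  simp only [occursAt_iff]
  simp [toL, occL, ind_eq, List.ofFn_succ, add_assoc]

/-- The list of all permutations of `0, …, 6`. -/
def allL : List (List ℕ) := List.permutations' [0, 1, 2, 3, 4, 5, 6]

lemma toL_injective : Function.Injective (toL (n := 7)) := by
  intro σ τ h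
  have h' := List.ofFn_injective h
  ext i
  exact congrFun h' i

lemma toL_mem (σ : Perm (Fin 7)) : toL σ ∈ allL := by
  rw [allL, List.mem_permutations']
  have h1 : toL σ = ((List.finRange 7).map σ).map (fun i : Fin 7 => (i : ℕ)) := by
    rw [toL, List.ofFn_eq_map, List.map_map]
    rfl
  have h2 : ([0, 1, 2, 3, 4, 5, 6] : List ℕ) = (List.finRange 7).map (fun i : Fin 7 => (i : ℕ)) := by
    decide
  rw [h1, h2]
  exact (σ.map_finRange_perm).map _

lemma sum_toL (F : List ℕ → ℕ) : ∑ σ : Perm (Fin 7), F (toL σ) = (allL.map F).sum := by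
  have hnd : allL.Nodup := by
    rw [allL]
    have : ([0, 1, 2, 3, 4, 5, 6] : List ℕ).Nodup := by decide
    exact (List.permutations_perm_permutations' _).nodup_iff.mp (List.nodup_permutations _ this)
  have himg : (univ : Finset (Perm (Fin 7))).image toL = allL.toFinset := by
    apply Finset.eq_of_subset_of_card_le
    · intro l hl
      obtain ⟨σ, -, rfl⟩ := Finset.mem_image.mp hl
      exact List.mem_toFinset.mpr (toL_mem σ)
    · rw [Finset.card_image_of_injective _ toL_injective, List.toFinset_card_of_nodup hnd,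
        Finset.card_univ, Fintype.card_perm, allL,
        ← (List.permutations_perm_permutations' _).length_eq, List.length_permutations]
      simp
  rw [← List.sum_toFinset F hnd, ← himg, Finset.sum_image (fun _ _ _ _ h => toL_injective h)]


/-- Summand for the number of permutations with `m` inversions. -/
def cF (m : ℕ) (l : List ℕ) : ℕ := if invL l = m then 1 else 0

/-- Summand for the number of occurrences in permutations with `m` inversions. -/
def oF (m : ℕ) (l : List ℕ) : ℕ := if invL l = m then occL l else 0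

lemma card_eq (m : ℕ) :
    (univ.filter fun σ : Perm (Fin 7) => inv σ = m).card = (allL.map (cF m)).sum := by
  rw [← sum_toL, Finset.card_filter]
  exact Finset.sum_congr rfl fun σ _ => by rw [cF, inv_eq_invL]

lemma occ_sum_eq (m : ℕ) :
    ∑ σ ∈ univ.filter (fun σ : Perm (Fin 7) => inv σ = m), occ pat σ = (allL.map (oF m)).sum := by
  rw [← sum_toL, Finset.sum_filter]
  exact Finset.sum_congr rfl fun σ _ => by rw [oF, inv_eq_invL, occ_eq_occL]

lemma expected_eq (m : ℕ) :
    expected 7 m pat = ((allL.map (oF m)).sum : ℚ) / ((allL.map (cF m)).sum : ℚ) := by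
  rw [expected, card_eq, ← occ_sum_eq]
  push_cast
  rfl

lemma c5 : (allL.map (cF 5)).sum = 169 := by decide +kernel
lemma c8 : (allL.map (cF 8)).sum = 455 := by decide +kernel
lemma c9 : (allL.map (cF 9)).sum = 531 := by decide +kernel
lemma o5 : (allL.map (oF 5)).sum = 6 := by decide +kernel
lemma o8 : (allL.map (oF 8)).sum = 15 := by decide +kernel
lemma o9 : (allL.map (oF 9)).sum = 18 := by decide +kernel

/-- The sequence of the expected numbers of occurrences of a consecutive pattern in random
permutations of `[n]` with a given number of inversions is not always unimodal, even for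
`n ≥ |π| + 2`. -/
theorem result : ∃ (k n : ℕ) (π : Perm (Fin k)) (a b c : ℕ), k + 2 ≤ n ∧ a < b ∧ b < c ∧
    c ≤ n.choose 2 ∧ expected n b π < expected n a π ∧ expected n b π < expected n c π := by
  refine ⟨5, 7, pat, 5, 8, 9, by norm_num, by norm_num, by norm_num, by decide, ?_, ?_⟩
  · rw [expected_eq, expected_eq, c5, c8, o5, o8]
    norm_num
  · rw [expected_eq, expected_eq, c8, c9, o8, o9]
    norm_num

end Pool.Agent.Results.MP_094caa_co.NotUnimodal
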